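import Pool.Agent.Helper584.PG.P_final_K
import Pool.Agent.Helper584.PG.P_final_N
import Pool.Agent.Helper584.PG.P_perim
import Pool.Agent.Helper584.PG.P_fr_basic

/-!
Uniqueness in Gardner's section perimeter problem when one of the two bodies is a ball.
-/

set_option autoImplicit false

open MeasureTheory Set Filter Topology

noncomputable section

namespace Pool.Agent.Results.MP_85963d_gt.BallUnique

/-- The relative boundary of the central section `K ∩ e^⊥` inside the plane `e^⊥`. -/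
def relBoundary (K : Set (EuclideanSpace ℝ (Fin 3))) (e : EuclideanSpace ℝ (Fin 3)) :
    Set (EuclideanSpace ℝ (Fin 3)) :=
  {x | x ∈ K ∧ inner ℝ x e = (0:ℝ) ∧ ∀ ε : ℝ, ε > 0 → ∃ y : EuclideanSpace ℝ (Fin 3),
    inner ℝ y e = (0:ℝ) ∧ dist y x < ε ∧ y ∉ K}

/-- `per_K(e)`: the length (one-dimensional Hausdorff measure) of the relative boundary of
`K ∩ e^⊥`. -/
def per (K : Set (EuclideanSpace ℝ (Fin 3))) (e : EuclideanSpace ℝ (Fin 3)) : ENNReal :=
  Measure.hausdorffMeasure (1:ℝ) (relBoundary K e)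

open Pool.Agent.Helper584.PG in
theorem ball_N (r : ℝ) (hr : 0 < r) : IsG (fun x : E => ‖x‖ / r) := by
  refine ⟨?_, ?_, ?_, ?_, ?_⟩
  · have h := (convexOn_univ_norm (E := E)).smul (c := r⁻¹) (by positivity)
    refine h.congr ?_
    intro x _
    simp [div_eq_inv_mul]
  · intro s hs x
    rw [norm_smul, Real.norm_eq_abs, abs_of_nonneg hs]; ring
  · intro x; simp
  · intro x hx
    have := norm_pos_iff.mpr hx
    positivity
  · refine ⟨Real.toNNReal r⁻¹, LipschitzWith.of_dist_le_mul fun x y => ?_⟩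
    rw [Real.dist_eq, Real.coe_toNNReal _ (by positivity), dist_eq_norm]
    have h1 : ‖x‖ / r - ‖y‖ / r = (‖x‖ - ‖y‖) * r⁻¹ := by ring
    rw [h1, abs_mul, abs_of_pos (inv_pos.mpr hr), mul_comm]
    exact mul_le_mul_of_nonneg_left (abs_norm_sub_norm_le x y) (by positivity)

open Pool.Agent.Helper584.PG in
theorem ball_per (r : ℝ) (hr : 0 < r) (g : T) (hg : g ∈ Fr) :
    Measure.hausdorffMeasure (1:ℝ) (bd (Metric.closedBall (0:E) r) g.2.2) =
      ENNReal.ofReal (2 * Real.pi * r) := by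
  have hK : Metric.closedBall (0:E) r = {x | (fun x : E => ‖x‖ / r) x ≤ 1} := by
    ext x
    simp [div_le_one hr]
  rw [perim _ _ (ball_N r hr) hK g hg]
  congr 1
  have hn : ∀ t, nn (fun x : E => ‖x‖ / r) g t = 1 / r := by
    intro t
    have h1 : ‖cv g t‖ = 1 := by
      have := (fr_basic.2.1 t g hg).1
      simpa [rX, cv] using this
    simp [nn, h1]
  have hn' : nn (fun x : E => ‖x‖ / r) g = fun _ => 1 / r := funext hn
  have hs : ∀ t, plS (nn (fun x : E => ‖x‖ / r) g) t = r := by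
    intro t
    rw [hn']
    simp only [plS, deriv_const]
    rw [show (1 / r) ^ 2 + (0:ℝ) ^ 2 = (1 / r) ^ 2 by ring, Real.sqrt_sq (by positivity)]
    field_simp
  simp [hs]

open Pool.Agent.Helper584.PG in
theorem frame_last (e : E) (he : ‖e‖ = 1) : ∃ g : T, g ∈ Fr ∧ g.2.2 = e := by
  obtain ⟨g, hg, rfl⟩ := final_N_frame e he
  obtain ⟨h1, h2, h3, h4, h5, h6⟩ := hg
  refine ⟨(g.2.1, g.2.2, g.1), ⟨h2, h3, h1, h6, ?_, ?_⟩, rfl⟩
  · rw [real_inner_comm]; exact h4
  · rw [real_inner_comm]; exact h5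

/-- Two origin-symmetric convex bodies with the same section perimeters coincide as soon as one of
them is a ball. -/
theorem result (K₁ K₂ : Set (EuclideanSpace ℝ (Fin 3)))
    (h1 : IsCompact K₁) (h2 : Convex ℝ K₁) (h3 : (interior K₁).Nonempty) (h4 : ∀ x ∈ K₁, -x ∈ K₁)
    (r : ℝ) (hr : 0 < r) (hK₂ : K₂ = Metric.closedBall 0 r)
    (hper : ∀ e : EuclideanSpace ℝ (Fin 3), ‖e‖ = 1 → per K₁ e = per K₂ e) :
    K₁ = K₂ := by
  subst hK₂
  have key : ∀ e : EuclideanSpace ℝ (Fin 3), ‖e‖ = 1 →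
      per (Metric.closedBall (0:EuclideanSpace ℝ (Fin 3)) r) e = ENNReal.ofReal (2 * Real.pi * r) := by
    intro e he
    obtain ⟨g, hg, rfl⟩ := frame_last e he
    exact ball_per r hr g hg
  obtain ⟨s, hs⟩ := Pool.Agent.Helper584.PG.final_K K₁ h1 h2 h3 h4 (ENNReal.ofReal (2 * Real.pi * r))
    (fun e he => (hper e he).trans (key e he))
  -- the radius `s` is positive since the interior is nonempty
  have hs0 : 0 < s := by
    by_contra hneg
    push Not at hneg
    obtain ⟨x, hx⟩ := h3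
    rcases hneg.lt_or_eq with h | h
    · rw [hs, Metric.closedBall_eq_empty.mpr h] at hx
      simp at hx
    · rw [hs, h, Metric.closedBall_zero, interior_singleton] at hx
      simp at hx
  obtain ⟨g, hg, hge⟩ := frame_last (EuclideanSpace.single 0 1) (by simp)
  have e1 := ball_per s hs0 g hg
  have e2 := (hper g.2.2 hg.2.2.1).trans (key g.2.2 hg.2.2.1)
  rw [hs] at e2
  have e3 : ENNReal.ofReal (2 * Real.pi * s) = ENNReal.ofReal (2 * Real.pi * r) := e1.symm.trans e2
  have e4 : 2 * Real.pi * s = 2 * Real.pi * r := by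
    have := congrArg ENNReal.toReal e3
    rwa [ENNReal.toReal_ofReal (by positivity), ENNReal.toReal_ofReal (by positivity)] at this
  have e5 : s = r := by
    have hpi : (2 * Real.pi) ≠ 0 := by positivity
    exact mul_left_cancel₀ hpi e4
  rw [hs, e5]

end Pool.Agent.Results.MP_85963d_gt.BallUnique
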