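import Pool.Agent.Helper584.PL.P_local_N
import Pool.Agent.Helper584.PL.P_calcX
import Pool.Agent.Helper584.PG.P_final_N
import Pool.Agent.Helper584.PG.P_gauge_isG
import Pool.Agent.Helper584.PG.P_perim
import Pool.Agent.Helper584.PG.P_fr_basic

/-!
Local uniqueness in Gardner's section perimeter problem: two origin-symmetric convex bodies close to
the unit ball, with pinched second derivatives of the radial functions, and with the same perimeters
of central sections coincide.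
-/

set_option autoImplicit false

open MeasureTheory Set Filter Topology

noncomputable section

namespace Pool.Agent.Results.MP_85963d_gt.LocalPairs

/-- The relative boundary of the central section `K ∩ e^⊥` inside the plane `e^⊥`. -/
def relBoundary (K : Set (EuclideanSpace ℝ (Fin 3))) (e : EuclideanSpace ℝ (Fin 3)) :
    Set (EuclideanSpace ℝ (Fin 3)) :=
  {x | x ∈ K ∧ inner ℝ x e = (0:ℝ) ∧ ∀ ε : ℝ, ε > 0 → ∃ y : EuclideanSpace ℝ (Fin 3),
    inner ℝ y e = (0:ℝ) ∧ dist y x < ε ∧ y ∉ K}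

/-- `per_K(e)`: the length (one-dimensional Hausdorff measure) of the relative boundary of
`K ∩ e^⊥`. -/
def per (K : Set (EuclideanSpace ℝ (Fin 3))) (e : EuclideanSpace ℝ (Fin 3)) : ENNReal :=
  Measure.hausdorffMeasure (1:ℝ) (relBoundary K e)

/-- Origin-symmetric convex bodies. -/
def IsSymBody (K : Set (EuclideanSpace ℝ (Fin 3))) : Prop :=
  IsCompact K ∧ Convex ℝ K ∧ (interior K).Nonempty ∧ ∀ x ∈ K, -x ∈ K

/-- The radial function `ρ_K(x) = sup {t | t x ∈ K}`. -/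
def radial (K : Set (EuclideanSpace ℝ (Fin 3))) (x : EuclideanSpace ℝ (Fin 3)) : ℝ :=
  sSup {t : ℝ | t • x ∈ K}

/-- The radial function is twice continuously differentiable off the origin, it is within `ε` of `1`
on the unit sphere, and along every great circle `t ↦ cos t x + sin t v` its second derivative
`ρ''` satisfies `m ≤ 1 - ρ'' ≤ M`. -/
def Pinched (m M ε : ℝ) (K : Set (EuclideanSpace ℝ (Fin 3))) : Prop :=
  ContDiffOn ℝ 2 (radial K) {0}ᶜ ∧
  ∀ x v : EuclideanSpace ℝ (Fin 3), ‖x‖ = 1 → ‖v‖ = 1 → inner ℝ x v = (0:ℝ) →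
    |radial K x - 1| ≤ ε ∧
    m ≤ 1 - deriv (deriv fun t : ℝ => radial K (Real.cos t • x + Real.sin t • v)) 0 ∧
    1 - deriv (deriv fun t : ℝ => radial K (Real.cos t • x + Real.sin t • v)) 0 ≤ M

open Pool.Agent.Helper584.PG in
theorem radial_eq (K : Set E) (h : IsSymBody K) : radial K = rad (gauge K) := by
  obtain ⟨h1, h2, h3, h4⟩ := h
  obtain ⟨hG, hKe⟩ := gauge_isG K h1 h2 h3 h4
  funext x
  by_cases hx : x = 0
  · subst hx
    have h0 : (0:E) ∈ K := by
      rw [hKe]; simp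
    have : {t : ℝ | t • (0:E) ∈ K} = Set.univ := by
      ext t; simp [h0]
    rw [radial, this, Real.sSup_univ, rad, gauge_zero, inv_zero]
  · have hpos := hG.pos x hx
    have hset : {t : ℝ | t • x ∈ K} = Set.Icc (-(gauge K x)⁻¹) (gauge K x)⁻¹ := by
      ext t
      have hmem : t • x ∈ K ↔ gauge K (t • x) ≤ 1 := by
        constructor
        · intro hy; rw [hKe] at hy; exact hy
        · intro hy; rw [hKe]; exact hy
      have habs : gauge K (t • x) = |t| * gauge K x := by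
        rcases le_total 0 t with ht | ht
        · rw [hG.hom t ht, abs_of_nonneg ht]
        · have : t • x = -((-t) • x) := by rw [neg_smul, neg_neg]
          rw [this, hG.even, hG.hom (-t) (by linarith), abs_of_nonpos ht]
      rw [Set.mem_setOf_eq, hmem, habs, Set.mem_Icc, ← abs_le, ← le_div_iff₀ hpos, one_div]
    rw [radial, hset, csSup_Icc (by have := inv_pos.mpr hpos; linarith)]
    rfl

open Pool.Agent.Helper584.PG in
theorem deriv_eq (R : E → ℝ) (hR : ContDiffOn ℝ 2 R {0}ᶜ) (g : T) (hg : g ∈ Fr) :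
    deriv (deriv fun t : ℝ => R (Real.cos t • g.1 + Real.sin t • g.2.1)) 0 = q2 R g := by
  have h1 : deriv (fun t : ℝ => R (Real.cos t • g.1 + Real.sin t • g.2.1)) =
      fun t => q1 R (rX t g) := by
    funext t
    exact (calcX R hR g hg t).1.deriv
  rw [h1]
  have h2 := (calcX R hR g hg 0).2.deriv
  have h3 : rX 0 g = g := by
    simp [rX]
  rw [h3] at h2
  exact h2

/-- Local uniqueness for pairs. -/
theorem result (m M : ℝ) (hm : 0 < m) (hM : M < (5 + 2 * Real.sqrt 6) * m) :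
    ∃ ε : ℝ, 0 < ε ∧ ∀ K₁ K₂ : Set (EuclideanSpace ℝ (Fin 3)), IsSymBody K₁ → IsSymBody K₂ →
      Pinched m M ε K₁ → Pinched m M ε K₂ →
      (∀ e : EuclideanSpace ℝ (Fin 3), ‖e‖ = 1 → per K₁ e = per K₂ e) → K₁ = K₂ := by
  by_cases hmM : m ≤ M
  swap
  · refine ⟨1, one_pos, ?_⟩
    intro K₁ K₂ _ _ hp _ _
    exfalso
    have h := hp.2 (EuclideanSpace.single 0 1) (EuclideanSpace.single 1 1) (by simp) (by simp)
      (by simp [EuclideanSpace.inner_single_left])
    exact hmM (h.2.1.trans h.2.2)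
  obtain ⟨ε, hε, hmain⟩ := Pool.Agent.Helper584.PG.local_N m M hm hM hmM
  refine ⟨ε, hε, ?_⟩
  intro K₁ K₂ hK₁ hK₂ hp₁ hp₂ hper
  open Pool.Agent.Helper584.PG in
  have key : ∀ K : Set E, IsSymBody K → Pinched m M ε K →
      ContDiffOn ℝ 2 (rad (gauge K)) {0}ᶜ ∧
      ∀ g ∈ Fr, |q0 (rad (gauge K)) g - 1| ≤ ε ∧ m ≤ 1 - q2 (rad (gauge K)) g ∧
        1 - q2 (rad (gauge K)) g ≤ M := by
    intro K hK hp
    have hr := radial_eq K hK
    refine ⟨hr ▸ hp.1, ?_⟩
    intro g hg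
    have h := hp.2 g.1 g.2.1 hg.1 hg.2.1 hg.2.2.2.1
    rw [hr] at h
    have hc : ContDiffOn ℝ 2 (rad (gauge K)) {0}ᶜ := hr ▸ hp.1
    rw [deriv_eq (rad (gauge K)) hc g hg] at h
    exact h
  obtain ⟨hG₁, he₁⟩ := Pool.Agent.Helper584.PG.gauge_isG K₁ hK₁.1 hK₁.2.1 hK₁.2.2.1 hK₁.2.2.2
  obtain ⟨hG₂, he₂⟩ := Pool.Agent.Helper584.PG.gauge_isG K₂ hK₂.1 hK₂.2.1 hK₂.2.2.1 hK₂.2.2.2
  have hres := hmain (gauge K₁) (gauge K₂) hG₁ hG₂ (key K₁ hK₁ hp₁).1 (key K₂ hK₂ hp₂).1
    (key K₁ hK₁ hp₁).2 (key K₂ hK₂ hp₂).2 (by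
      intro g hg
      have e1 := Pool.Agent.Helper584.PG.perim K₁ (gauge K₁) hG₁ he₁ g hg
      have e2 := Pool.Agent.Helper584.PG.perim K₂ (gauge K₂) hG₂ he₂ g hg
      have e3 : Measure.hausdorffMeasure (1:ℝ) (Pool.Agent.Helper584.PG.bd K₁ g.2.2) =
          Measure.hausdorffMeasure (1:ℝ) (Pool.Agent.Helper584.PG.bd K₂ g.2.2) :=
        hper g.2.2 hg.2.2.1
      have hnn : ∀ N : Pool.Agent.Helper584.PG.E → ℝ, 0 ≤ ∫ t in (0:ℝ)..(2 * Real.pi),
          Pool.Agent.Helper584.PG.plS (Pool.Agent.Helper584.PG.nn N g) t := by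
        intro N
        apply intervalIntegral.integral_nonneg (by positivity)
        intro t _
        unfold Pool.Agent.Helper584.PG.plS
        positivity
      rw [e1, e2] at e3
      exact (ENNReal.ofReal_eq_ofReal_iff (hnn _) (hnn _)).mp e3)
  have hunit : ∀ x : Pool.Agent.Helper584.PG.E, ‖x‖ = 1 → gauge K₁ x = gauge K₂ x := by
    intro x hx
    obtain ⟨g, hg, rfl⟩ := Pool.Agent.Helper584.PG.final_N_frame x hx
    exact hres g hg
  have hall : ∀ x : Pool.Agent.Helper584.PG.E, gauge K₁ x = gauge K₂ x := by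
    intro x
    by_cases hx : x = 0
    · subst hx; rw [gauge_zero, gauge_zero]
    · have hn : 0 < ‖x‖ := norm_pos_iff.mpr hx
      have hx' : x = ‖x‖ • ((‖x‖)⁻¹ • x) := by
        rw [smul_smul, mul_inv_cancel₀ hn.ne', one_smul]
      rw [hx', hG₁.hom _ hn.le, hG₂.hom _ hn.le, hunit]
      rw [norm_smul, norm_inv, norm_norm, inv_mul_cancel₀ hn.ne']
  have e5 : K₁ = {x | gauge K₁ x ≤ 1} := he₁
  have e6 : K₂ = {x | gauge K₂ x ≤ 1} := he₂
  rw [e5, e6]
  ext x
  show gauge K₁ x ≤ 1 ↔ gauge K₂ x ≤ 1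
  rw [hall]

end Pool.Agent.Results.MP_85963d_gt.LocalPairs
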